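import Pool.Agent.N126.IS.Stm

/-!
# Project IS, task SPEC: almost all specialisations of `s` extend to finitely generated algebras

Lying over for the integral closure of `k[s]` in `K`, then localisation at the maximal ideal.
-/

set_option autoImplicit false

open Polynomial

namespace Pool.Agent.N319.IS

/-- lying over, for algebras integral over a polynomial ring in one variable -/
theorem exists_hom {k S : Type} [Field k] [IsAlgClosed k] [CommRing S] [Algebra k S]
    [Algebra k[X] S] [IsScalarTower k k[X] S] [Algebra.IsIntegral k[X] S]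
    (hinj : Function.Injective (algebraMap k[X] S)) (σ : k) :
    ∃ ψ : S →ₐ[k] k, ψ (algebraMap k[X] S X) = σ := by
  set P : Ideal k[X] := RingHom.ker (evalRingHom σ) with hP
  have hsurj : Function.Surjective (evalRingHom σ) := fun a => ⟨C a, by simp⟩
  have hPmax : P.IsMaximal := RingHom.ker_isMaximal_of_surjective (evalRingHom σ) hsurj
  obtain ⟨Q, hQmax, hQ⟩ := Ideal.exists_ideal_over_maximal_of_isIntegral (S := S) P (by
    rw [(RingHom.injective_iff_ker_eq_bot _).1 hinj]; exact bot_le)
  -- the residue field is `k`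
  have hcomp : (Ideal.Quotient.mk Q).comp (algebraMap k[X] S) =
      (algebraMap k (S ⧸ Q)).comp (evalRingHom σ) := by
    ext x
    · simp only [RingHom.comp_apply, coe_evalRingHom, eval_C]
      rw [← Polynomial.algebraMap_eq, ← IsScalarTower.algebraMap_apply k k[X] S,
        IsScalarTower.algebraMap_apply k S (S ⧸ Q), Ideal.Quotient.algebraMap_eq]
    · simp only [RingHom.comp_apply, coe_evalRingHom, eval_X]
      rw [IsScalarTower.algebraMap_apply k S (S ⧸ Q), IsScalarTower.algebraMap_apply k k[X] S,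
        Ideal.Quotient.algebraMap_eq, ← sub_eq_zero, ← map_sub, ← map_sub,
        Ideal.Quotient.eq_zero_iff_mem, ← Ideal.mem_comap, hQ, hP, RingHom.mem_ker]
      simp
  have hint : (algebraMap k (S ⧸ Q)).IsIntegral := by
    apply RingHom.IsIntegral.tower_top (evalRingHom σ)
    rw [← hcomp]
    refine RingHom.IsIntegral.trans _ _ ?_ ?_
    · exact algebraMap_isIntegral_iff.2 inferInstance
    · exact RingHom.isIntegral_of_surjective _ Ideal.Quotient.mk_surjective
  have : Algebra.IsIntegral k (S ⧸ Q) := algebraMap_isIntegral_iff.1 hint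
  have : IsDomain (S ⧸ Q) := Ideal.Quotient.isDomain Q
  have hbij : Function.Bijective (algebraMap k (S ⧸ Q)) :=
    IsAlgClosed.algebraMap_bijective_of_isIntegral
  set E : k ≃ₐ[k] (S ⧸ Q) := AlgEquiv.ofBijective (Algebra.ofId k (S ⧸ Q)) hbij with hE
  refine ⟨E.symm.toAlgHom.comp (Ideal.Quotient.mkₐ k Q), ?_⟩
  have h1 : (Ideal.Quotient.mk Q) (algebraMap k[X] S X) = algebraMap k (S ⧸ Q) σ := by
    have := congrArg (fun f => f X) hcomp
    simpa using this
  show E.symm (Ideal.Quotient.mk Q (algebraMap k[X] S X)) = σ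
  rw [h1, AlgEquiv.symm_apply_eq]
  rfl

/-- extension of a homomorphism to fractions -/
theorem extend_hom {k K B : Type} [Field k] [Field K] [Algebra k K] [CommRing B] [Algebra k B]
    (i : B →ₐ[k] K) (hi : Function.Injective i) (ψ : B →ₐ[k] k) (G : Set K)
    (hG : ∀ g ∈ G, ∃ b c : B, ψ c ≠ 0 ∧ g * i c = i b) :
    ∃ φ : Algebra.adjoin k G →ₐ[k] k, ∀ (b : B) (hb : i b ∈ Algebra.adjoin k G),
      φ ⟨i b, hb⟩ = ψ b := by
  set 𝔫 : Ideal B := RingHom.ker (ψ : B →+* k) with h𝔫
  have : 𝔫.IsPrime := RingHom.ker_isPrime _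
  have h1 : ∀ y : 𝔫.primeCompl, IsUnit (ψ (y : B)) := by
    intro y
    rw [isUnit_iff_ne_zero]
    intro h
    exact y.2 ((RingHom.mem_ker).2 h)
  have h2 : ∀ y : 𝔫.primeCompl, IsUnit (i (y : B)) := by
    intro y
    rw [isUnit_iff_ne_zero]
    intro h
    have : (y : B) = 0 := hi (by rw [h, map_zero])
    exact y.2 (by rw [this]; exact 𝔫.zero_mem)
  let L := Localization 𝔫.primeCompl
  let Ψ : L →ₐ[k] k := IsLocalization.liftAlgHom (M := 𝔫.primeCompl) (f := ψ) h1
  let j : L →ₐ[k] K := IsLocalization.liftAlgHom (M := 𝔫.primeCompl) (f := i) h2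
  have hΨ : ∀ b : B, Ψ (algebraMap B L b) = ψ b := fun b => IsLocalization.lift_eq h1 b
  have hj : ∀ b : B, j (algebraMap B L b) = i b := fun b => IsLocalization.lift_eq h2 b
  have hjinj : Function.Injective j := by
    rw [injective_iff_map_eq_zero]
    intro x hx
    obtain ⟨⟨b, c⟩, hbc⟩ := IsLocalization.surj 𝔫.primeCompl x
    have h3 : j (x * algebraMap B L c) = j (algebraMap B L b) := by rw [hbc]
    rw [map_mul, hx, zero_mul, hj] at h3
    have h4 : b = 0 := hi (by rw [← h3, map_zero])
    rw [h4, map_zero] at hbc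
    exact ((IsLocalization.map_units L c).mul_left_eq_zero).1 hbc
  have hle : Algebra.adjoin k G ≤ j.range := by
    rw [Algebra.adjoin_le_iff]
    intro g hg
    obtain ⟨b, c, hc, hbc⟩ := hG g hg
    have hc' : c ∈ 𝔫.primeCompl := fun h => hc ((RingHom.mem_ker).1 h)
    refine ⟨IsLocalization.mk' L b ⟨c, hc'⟩, ?_⟩
    have h5 : j (IsLocalization.mk' L b ⟨c, hc'⟩) * i c = i b := by
      rw [← hj c, ← map_mul]
      have h8 := IsLocalization.mk'_spec L b (⟨c, hc'⟩ : 𝔫.primeCompl)
      simp only at h8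
      rw [h8, hj]
    have h6 : i c ≠ 0 := by
      intro h
      have : c = 0 := hi (by rw [h, map_zero])
      exact hc (by rw [this, map_zero])
    exact mul_right_cancel₀ h6 (h5.trans hbc.symm)
  let J := AlgEquiv.ofInjective j hjinj
  refine ⟨Ψ.comp (J.symm.toAlgHom.comp (Subalgebra.inclusion hle)), ?_⟩
  intro b hb
  show Ψ (J.symm (Subalgebra.inclusion hle ⟨i b, hb⟩)) = ψ b
  have h7 : J.symm (Subalgebra.inclusion hle ⟨i b, hb⟩) = algebraMap B L b := by
    rw [AlgEquiv.symm_apply_eq]
    apply Subtype.ext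
    show i b = j (algebraMap B L b)
    rw [hj]
  rw [h7, hΨ]

theorem main_SPEC : Pool.Agent.N126.IS.S_SPEC := by
  classical
  intro k K _ _ _ _ _ s hs W hW
  let _ : Algebra k[X] K := (Polynomial.aeval s).toRingHom.toAlgebra
  have hmap : ∀ f : k[X], algebraMap k[X] K f = aeval s f := fun f => rfl
  have : IsScalarTower k k[X] K := IsScalarTower.of_algebraMap_eq fun x => by
    rw [hmap, Polynomial.algebraMap_eq, aeval_C]
  have hinj : Function.Injective (algebraMap k[X] K) := transcendental_iff_injective.1 hs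
  -- the elements of `W` are algebraic over `k[X]`
  have halg : ∀ w ∈ W, IsAlgebraic k[X] w := by
    intro w hw
    have h1 := IntermediateField.isAlgebraic_adjoin_iff.1 (hW w hw)
    have h2 : ∀ f : k[X], aeval s f ∈ Algebra.adjoin k {s} := fun f => by
      rw [Algebra.adjoin_singleton_eq_range_aeval]; exact ⟨f, rfl⟩
    let g : k[X] →ₐ[k] Algebra.adjoin k {s} := (aeval s).codRestrict _ h2
    refine IsAlgebraic.of_ringHom_of_comp_eq g.toRingHom (RingHom.id K) h1 ?_
      Function.injective_id ?_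
    · rintro ⟨x, hx⟩
      rw [Algebra.adjoin_singleton_eq_range_aeval] at hx
      obtain ⟨f, hf⟩ := hx
      exact ⟨f, Subtype.ext hf⟩
    · ext f <;> rfl
  choose a ha0 haint using fun (w : W) => (halg w.1 w.2).exists_integral_multiple
  let B := integralClosure k[X] K
  set f : k[X] := ∏ w : W, a w with hf
  have hf0 : f ≠ 0 := Finset.prod_ne_zero_iff.2 fun w _ => ha0 w
  refine ⟨f.roots.toFinset, fun σ hσ => ?_⟩
  have hfσ : ∀ w : W, (a w).eval σ ≠ 0 := by
    intro w hw
    apply hσ
    rw [Multiset.mem_toFinset, mem_roots hf0, IsRoot, hf, eval_prod]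
    exact Finset.prod_eq_zero (Finset.mem_univ w) hw
  have hinjB : Function.Injective (algebraMap k[X] B) := by
    intro x y hxy
    apply hinj
    have := congrArg (fun z : B => (z : K)) hxy
    exact this
  obtain ⟨ψ, hψ⟩ := exists_hom (S := B) hinjB σ
  have hψf : ∀ p : k[X], ψ (algebraMap k[X] B p) = p.eval σ := by
    intro p
    have h1 : (ψ : B →+* k).comp (algebraMap k[X] B) = evalRingHom σ := by
      ext x
      · simp only [RingHom.comp_apply, coe_evalRingHom, eval_C]
        rw [← Polynomial.algebraMap_eq, ← IsScalarTower.algebraMap_apply k k[X] B]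
        exact ψ.commutes x
      · simp only [RingHom.comp_apply, coe_evalRingHom, eval_X]
        exact hψ
    exact congrArg (fun g => g p) h1
  let i : B →ₐ[k] K := B.val.restrictScalars k
  have hi : Function.Injective i := Subtype.val_injective
  have his : ∀ p : k[X], i (algebraMap k[X] B p) = aeval s p := fun p => rfl
  obtain ⟨φ, hφ⟩ := extend_hom i hi ψ (insert s (W : Set K)) (by
    rintro g (rfl | hg)
    · refine ⟨algebraMap k[X] B X, 1, ?_, ?_⟩
      · rw [map_one]; exact one_ne_zero
      · rw [map_one, mul_one, his, aeval_X]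
    · refine ⟨⟨a ⟨g, hg⟩ • g, haint ⟨g, hg⟩⟩, algebraMap k[X] B (a ⟨g, hg⟩), ?_, ?_⟩
      · rw [hψf]; exact hfσ _
      · show g * aeval s (a ⟨g, hg⟩) = a ⟨g, hg⟩ • g
        rw [Algebra.smul_def, hmap, mul_comm])
  refine ⟨φ, ?_⟩
  have h3 : i (algebraMap k[X] B X) = s := by rw [his, aeval_X]
  have h4 := hφ (algebraMap k[X] B X) (by
    rw [h3]; exact Algebra.subset_adjoin (Set.mem_insert _ _))
  rw [hψ] at h4
  rw [← h4]
  congr 1
  exact Subtype.ext h3.symm

end Pool.Agent.N319.IS
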